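import Mathlib
import Pool.Agent.Q147.Plastic

/-!
# MP_fc2771_gt : no dense sigma-compact subgroup of the line is plastic

`IsPlastic X` (defined in `Pool.Agent.Q147.Plastic`) says that every non-expansive bijection
`X → X` is an isometry.
-/

namespace Pool.Agent.Results.MP_fc2771_gt.NoSigmaCompactPlastic

open Set MeasureTheory Topology Pool.Agent.Q147.Plastic

/-- The metric space `X` is strictly convex: for `a, b > 0` with `a + b = d(x, y)` there is exactly
one `z` with `d(x, z) = a` and `d(z, y) = b`. -/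
def IsStrictlyConvex (X : Type) [MetricSpace X] : Prop :=
  ∀ (x y : X) (a b : ℝ), 0 < a → 0 < b → a + b = dist x y → ∃! z, dist x z = a ∧ dist z y = b

lemma isStrictlyConvex_real : IsStrictlyConvex ℝ := by
  intro x y a b ha hb hab
  rw [Real.dist_eq] at hab
  rcases le_total x y with hxy | hxy
  · rw [abs_of_nonpos (by linarith)] at hab
    refine ⟨x + a, ⟨?_, ?_⟩, ?_⟩
    · rw [Real.dist_eq, abs_of_nonpos (by linarith)]
      linarith
    · rw [Real.dist_eq, abs_of_nonpos (by linarith)]
      linarith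
    · rintro z ⟨h1, h2⟩
      rw [Real.dist_eq] at h1 h2
      rcases abs_cases (x - z) with ⟨e1, _⟩ | ⟨e1, _⟩ <;>
        rcases abs_cases (z - y) with ⟨e2, _⟩ | ⟨e2, _⟩ <;> linarith
  · rw [abs_of_nonneg (by linarith)] at hab
    refine ⟨x - a, ⟨?_, ?_⟩, ?_⟩
    · rw [Real.dist_eq, abs_of_nonneg (by linarith)]
      linarith
    · rw [Real.dist_eq, abs_of_nonneg (by linarith)]
      linarith
    · rintro z ⟨h1, h2⟩
      rw [Real.dist_eq] at h1 h2
      rcases abs_cases (x - z) with ⟨e1, _⟩ | ⟨e1, _⟩ <;>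
        rcases abs_cases (z - y) with ⟨e2, _⟩ | ⟨e2, _⟩ <;> linarith

lemma analytic_of_sigmaCompact {S : Set ℝ} (h : IsSigmaCompact S) : AnalyticSet S := by
  obtain ⟨K, hK, rfl⟩ := h
  exact (MeasurableSet.iUnion fun n => (hK n).measurableSet).analyticSet

/-- Q2: no dense `σ`-compact subgroup of `ℝ` is plastic. Q1: there is a separable strictly convex
metric abelian group which has no subgroup that is dense, `σ`-compact and plastic. -/
theorem result :
    (∀ H : AddSubgroup ℝ, Dense (H : Set ℝ) → IsSigmaCompact (H : Set ℝ) → ¬ IsPlastic H) ∧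
    ∃ (G : Type) (_ : AddCommGroup G) (_ : MetricSpace G),
      (∀ x y z : G, dist (x + z) (y + z) = dist x y) ∧ TopologicalSpace.SeparableSpace G ∧
        IsStrictlyConvex G ∧
          ¬ ∃ H : AddSubgroup G, Dense (H : Set G) ∧ IsSigmaCompact (H : Set G) ∧ IsPlastic H := by
  have h : ∀ H : AddSubgroup ℝ, Dense (H : Set ℝ) → IsSigmaCompact (H : Set ℝ) →
      ¬ IsPlastic H := fun H hd hs => not_plastic_analytic H hd (analytic_of_sigmaCompact hs)
  refine ⟨h, ℝ, inferInstance, inferInstance, ?_, inferInstance, isStrictlyConvex_real, ?_⟩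
  · intro x y z
    exact dist_add_right x y z
  · rintro ⟨H, h1, h2, h3⟩
    exact h H h1 h2 h3

end Pool.Agent.Results.MP_fc2771_gt.NoSigmaCompactPlastic
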